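import Pool.Agent.H77.PM.Targets

/-!
Row PER: perfectly many closed substructures.
-/

set_option autoImplicit false

open Set Filter Topology

namespace Pool.Agent.H33.PM

open Pool.Agent.H77.PM

theorem pf_PER (hFAM : T_FAM) (hSAM : T_SAM) (hMEA : T_MEA) : T_PER := by
  intro ι ar Z _ _ S p m A hp hinf hA
  obtain ⟨q, hLC, hinj, hcl, hfix, hne⟩ := hFAM S.M p m hp hinf
  refine ⟨fun u => code S (q u), hMEA ι ar Z S q hLC, fun u => hA (q u) (hinj u) (hfix u),
    fun u v huv hs => ?_⟩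
  obtain ⟨e, he, -⟩ := hSAM ι ar Z S S (q u) (q v) (hinj u) (hcl u) (hinj v) (hcl v) hs
  exact hne u v huv ⟨e, he⟩

end Pool.Agent.H33.PM
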