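import Pool.Agent.H77.PM.Targets

/-!
Row TIL: the discrete form of a code.
-/

set_option autoImplicit false

open Set Filter Topology

namespace Pool.Agent.H33.PM

open Pool.Agent.H77.PM

theorem pf_TIL : T_TIL := by
  intro ι ar Z _ r hr
  refine ⟨fun x => ?_, fun x g => rfl, ?_, ?_⟩
  · refine Prod.ext ?_ ?_
    · funext i j
      change x.1 (if ((0 : Fin (r + 2)) : ℕ) = 0 then i else if ((0 : Fin (r + 2)) : ℕ) = 1 then j
        else 0) (if ((1 : Fin (r + 2)) : ℕ) = 0 then i else if ((1 : Fin (r + 2)) : ℕ) = 1 then j
        else 0) = x.1 i j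
      have h0 : ((0 : Fin (r + 2)) : ℕ) = 0 := rfl
      have h1 : ((1 : Fin (r + 2)) : ℕ) = 1 := by simp
      rw [if_pos h0, if_neg (by rw [h1]; exact one_ne_zero), if_pos h1]
    · funext i a
      change (x.2 i fun j : Fin (ar i) => if h : ((j : ℕ) + 2) - 2 < ar i then
        a ⟨((j : ℕ) + 2) - 2, h⟩ else 0) = x.2 i a
      refine congrArg (x.2 i) (funext fun j => ?_)
      have h : ((j : ℕ) + 2) - 2 < ar i := by
        have := j.2
        omega
      rw [dif_pos h]
      exact congrArg a (Fin.ext (Nat.add_sub_cancel _ _))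
  · refine measurable_pi_lambda _ fun a => Measurable.prodMk ?_ ?_
    · exact (measurable_pi_apply (a 1)).comp ((measurable_pi_apply (a 0)).comp measurable_fst)
    · refine measurable_pi_lambda _ fun i => ?_
      exact (measurable_pi_apply (X := fun _ : Fin (ar i) → ℕ => Z) _).comp
        ((measurable_pi_apply (X := fun i : ι => (Fin (ar i) → ℕ) → Z) i).comp measurable_snd)
  · refine Measurable.prodMk ?_ ?_
    · refine measurable_pi_lambda _ fun i => measurable_pi_lambda _ fun j => ?_
      exact measurable_fst.comp (measurable_pi_apply _)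
    · refine measurable_pi_lambda _ fun i => measurable_pi_lambda _ fun a => ?_
      exact (measurable_pi_apply i).comp (measurable_snd.comp (measurable_pi_apply _))

end Pool.Agent.H33.PM
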